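import Pool.Agent.H.MP_5e7104_an.D

set_option autoImplicit false

namespace Pool.Agent.Results.MP_5e7104_an.No
open MeasureTheory

/-- The closed span in L2 of the functions 2^(j/2) φ(2^j t - k), k an integer. -/
noncomputable def V (φ : ℝ → ℂ) (j : ℤ) : Submodule ℂ (Lp ℂ 2 (volume : Measure ℝ)) :=
  (Submodule.span ℂ {g : Lp ℂ 2 (volume : Measure ℝ) | ∃ k : ℤ, g =ᵐ[volume]
    fun t : ℝ => ((2 : ℝ) ^ ((j : ℝ) / 2) : ℝ) * φ (2 ^ j * t - k)}).topologicalClosure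

open Pool.Agent.H.MP_5e7104_an in
theorem result : ∃ (φ : ℝ → ℂ) (d : ℤ →₀ ℂ) (P : ℤ) (t₀ : ℝ),
    Continuous φ ∧ HasCompactSupport φ ∧ MemLp φ 2 volume ∧
    (∀ k l : ℤ, ∫ t, φ (t - k) * (starRingEnd ℂ) (φ (t - l)) = if k = l then 1 else 0) ∧
    (∀ t, φ (t / 2) = ∑ k ∈ d.support, d k * φ (t - k)) ∧
    (∀ j, V φ j ≤ V φ (j + 1)) ∧
    Dense (⋃ j, (V φ j : Set (Lp ℂ 2 (volume : Measure ℝ)))) ∧
    ⋂ j, (V φ j : Set (Lp ℂ 2 (volume : Measure ℝ))) = {0} ∧
    ∀ k : ℤ, φ (t₀ + k) = if k = P then 1 else 0 := by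
  obtain ⟨a, b, hp⟩ := exists_par
  obtain ⟨φ, h, hf⟩ := exists_phi hp
  have ho := orth hp h hf
  obtain ⟨c1, c2, c3⟩ := card hp h hf
  have hc : HasCompactSupport φ := by simpa using h.cs one_pos 0
  have hV : ∀ j, V (fun t => (φ t : ℂ)) j = W h j := by
    intro j
    rw [V, W]
    congr 2
    ext g
    refine exists_congr fun k => ?_
    have e1 : e h j k =ᵐ[volume] fun t : ℝ =>
        (((2 : ℝ) ^ ((j : ℝ) / 2) : ℝ) : ℂ) * (φ (2 ^ j * t - k) : ℂ) :=
      (h.mem j k).coeFn_toLp.trans (.of_forall fun t => Complex.ofReal_mul _ _)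
    exact ⟨fun hg => Lp.ext (e1.trans hg.symm), fun hg => hg ▸ e1⟩
  refine ⟨fun t => φ t, ∑ i : Fin 4, Finsupp.single ((i : ℕ) : ℤ) (cf a b i : ℂ), 0, 2 / 3,
    Complex.continuous_ofReal.comp h.cont,
    hc.comp_left (g := fun x : ℝ => (x : ℂ)) Complex.ofReal_zero, mem2 h.cont hc, fun k l => ?_,
    fun t => ?_, ?_, ?_, ?_, fun k => ?_⟩
  · have := A_scale φ one_pos k l
    simp only [one_mul, div_one, ← Int.cast_sub, ho, sub_eq_zero] at this
    simp only [Complex.conj_ofReal, ← Complex.ofReal_mul]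
    rw [integral_complex_ofReal, this]
    by_cases hk : k = l
    · simp [hk]
    · rw [if_neg (Ne.symm hk), if_neg hk, Complex.ofReal_zero]
  · change (φ (t / 2) : ℂ) = Finsupp.sum _ fun (k : ℤ) (c : ℂ) => c * (φ (t - k) : ℂ)
    rw [← Finsupp.sum_finsetSum_index (by simp) (by simp [add_mul]), hf, S_eq,
      mul_div_cancel₀ _ two_ne_zero]
    simp
  · simpa only [hV] using nested h hf
  · simpa only [hV] using dense h hf
  · simp only [hV]
    exact Set.eq_singleton_iff_unique_mem.2 ⟨Set.mem_iInter.2 fun j => (W h j).zero_mem,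
      fun g hg => triv h ho (Set.mem_iInter.1 hg)⟩
  · beta_reduce
    rcases (by omega : k ≤ -1 ∨ k = 0 ∨ k = 1 ∨ k = 2 ∨ 3 ≤ k) with hk | rfl | rfl | rfl | hk
    · have : (k : ℝ) ≤ -1 := by exact_mod_cast hk
      rw [if_neg (by omega), h.left _ (by linarith), Complex.ofReal_zero]
    · simp [c1]
    · norm_num [c2]
    · norm_num [c3]
    · have : (3 : ℝ) ≤ k := by exact_mod_cast hk
      rw [if_neg (by omega), h.right _ (by linarith), Complex.ofReal_zero]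

end Pool.Agent.Results.MP_5e7104_an.No
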